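import Mathlib

/-!
The ratio of the upper broadcast domination number to the upper domination number is
unbounded over connected graphs.
-/

namespace Pool.Agent.Results.MP_9b093e_co.UnboundedRatio

open SimpleGraph

/-- `f` is a broadcast on `G`: `f v` is at most the eccentricity of `v` for every `v`. -/
def IsBroadcast {V : Type} (G : SimpleGraph V) (f : V → ℕ) : Prop :=
  ∀ v, (f v : ℕ∞) ≤ G.eccent v

/-- `f` is a dominating broadcast: every vertex `x` is within distance `f v` of some `v`
with `f v ≥ 1`. -/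
def IsDominatingBroadcast {V : Type} (G : SimpleGraph V) (f : V → ℕ) : Prop :=
  IsBroadcast G f ∧ ∀ x, ∃ v, 1 ≤ f v ∧ G.dist x v ≤ f v

/-- `f` is a minimal dominating broadcast: no pointwise smaller broadcast is dominating. -/
def IsMinimalDominatingBroadcast {V : Type} (G : SimpleGraph V) (f : V → ℕ) : Prop :=
  IsDominatingBroadcast G f ∧
    ∀ g : V → ℕ, (∀ v, g v ≤ f v) → g ≠ f → ¬ IsDominatingBroadcast G g

/-- The upper broadcast domination number. -/
noncomputable def upperBroadcast {V : Type} [Fintype V] (G : SimpleGraph V) : ℕ :=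
  sSup {k | ∃ f : V → ℕ, IsMinimalDominatingBroadcast G f ∧ k = ∑ v, f v}

/-- `D` is a dominating set. -/
def IsDominating {V : Type} (G : SimpleGraph V) (D : Finset V) : Prop :=
  ∀ v, v ∈ D ∨ ∃ w ∈ D, G.Adj v w

/-- `D` is a minimal dominating set: no proper subset is dominating. -/
def IsMinimalDominating {V : Type} (G : SimpleGraph V) (D : Finset V) : Prop :=
  IsDominating G D ∧ ∀ D' : Finset V, D' ⊂ D → ¬ IsDominating G D'

/-- The upper domination number. -/
noncomputable def upperDomination {V : Type} (G : SimpleGraph V) : ℕ :=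
  sSup {k | ∃ D : Finset V, IsMinimalDominating G D ∧ D.card = k}

theorem upperBroadcast_bdd {V : Type} [Fintype V] (G : SimpleGraph V) (hG : G.Connected) :
    BddAbove {k | ∃ f : V → ℕ, IsMinimalDominatingBroadcast G f ∧ k = ∑ v, f v} := by
  refine ⟨∑ v : V, ∑ x : V, G.dist v x, ?_⟩
  rintro k ⟨f, hf, rfl⟩
  apply Finset.sum_le_sum
  intro v _
  obtain ⟨x, hx⟩ := G.exists_edist_eq_eccent_of_finite v
  have h1 := hf.1.1 v
  rw [← hx, ← (hG v x).coe_dist_eq_edist] at h1
  have h2 : f v ≤ G.dist v x := by exact_mod_cast h1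
  exact h2.trans (Finset.single_le_sum (f := fun x => G.dist v x)
    (fun _ _ => Nat.zero_le _) (Finset.mem_univ x))

/-- The vertices `(t, c)`: level `t ≤ N`, column `c`; the column `none` is absent on
level `0`. -/
abbrev W (N : ℕ) : Type := {v : Fin (N + 1) × Option (Fin N) // ¬ (v.1.val = 0 ∧ v.2 = none)}

/-- The graph: levels are cliques, consecutive vertices of a proper column are adjacent. -/
def H (N : ℕ) : SimpleGraph (W N) where
  Adj x y := (x.1.1 = y.1.1 ∧ x ≠ y) ∨
    (x.1.2 = y.1.2 ∧ x.1.2 ≠ none ∧ (x.1.1.val = y.1.1.val + 1 ∨ y.1.1.val = x.1.1.val + 1))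
  symm := ⟨by
    rintro x y (⟨h, h'⟩ | ⟨h, h', h''⟩)
    · exact Or.inl ⟨h.symm, h'.symm⟩
    · exact Or.inr ⟨h.symm, h ▸ h', h''.symm⟩⟩
  loopless := ⟨by
    rintro x (⟨-, h⟩ | ⟨-, -, h⟩)
    · exact h rfl
    · omega⟩

/-- The vertex of column `i` on level `t`. -/
def xv {N : ℕ} (i : Fin N) (t : ℕ) (ht : t ≤ N) : W N :=
  ⟨(⟨t, by omega⟩, some i), by simp⟩

theorem xv_walk {N : ℕ} (i : Fin N) : ∀ (n t : ℕ) (ht : t + n = N),
    ∃ p : (H N).Walk (xv i t (by omega)) (xv i N (le_refl N)), p.length = n := by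
  intro n
  induction n with
  | zero =>
    intro t ht
    have : t = N := by omega
    subst this
    exact ⟨Walk.nil, rfl⟩
  | succ n ih =>
    intro t ht
    obtain ⟨p, hp⟩ := ih (t + 1) (by omega)
    have hadj : (H N).Adj (xv i t (by omega)) (xv i (t + 1) (by omega)) :=
      Or.inr ⟨rfl, Option.some_ne_none _, Or.inr rfl⟩
    exact ⟨Walk.cons hadj p, by rw [Walk.length_cons, hp]⟩

theorem dist_top_le {N : ℕ} (i : Fin N) (t : ℕ) (ht : t ≤ N) :
    (H N).dist (xv i t ht) (xv i N (le_refl N)) ≤ N - t := by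
  obtain ⟨p, hp⟩ := xv_walk i (N - t) t (by omega)
  have := dist_le p
  omega

/-- A potential that changes by at most one along every edge. -/
theorem potential {N : ℕ} (φ : W N → ℕ) (hφ : ∀ x y, (H N).Adj x y → φ y ≤ φ x + 1)
    {x y : W N} (p : (H N).Walk x y) : φ y ≤ φ x + p.length := by
  induction p with
  | nil => simp
  | @cons u v w h q ih =>
    rw [Walk.length_cons]
    have := hφ u v h
    omega

theorem H_connected {N : ℕ} (hN : 0 < N) : (H N).Connected := by
  set i0 : Fin N := ⟨0, hN⟩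
  have : Nonempty (W N) := ⟨xv i0 N (le_refl N)⟩
  have key : ∀ x : W N, (H N).Reachable x (xv i0 N (le_refl N)) := by
    rintro ⟨⟨t, c⟩, hc⟩
    have h1 : (H N).Reachable (xv i0 t.val (by have := t.isLt; omega)) (xv i0 N (le_refl N)) := by
      obtain ⟨p, -⟩ := xv_walk i0 (N - t.val) t.val (by have := t.isLt; omega)
      exact ⟨p⟩
    by_cases hx : (⟨(t, c), hc⟩ : W N) = xv i0 t.val (by have := t.isLt; omega)
    · rw [hx]; exact h1
    · exact (SimpleGraph.Adj.reachable (Or.inl ⟨rfl, hx⟩)).trans h1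
  exact SimpleGraph.Connected.mk (fun u v => (key u).trans (key v).symm)

theorem dist_level {N : ℕ} (hN : 0 < N) (x y : W N) :
    y.1.1.val ≤ x.1.1.val + (H N).dist x y := by
  obtain ⟨p, hp⟩ := (H_connected hN).exists_walk_length_eq_dist x y
  rw [← hp]
  apply potential (fun v => v.1.1.val) _ p
  rintro u v (⟨h, -⟩ | ⟨-, -, h⟩)
  · show v.1.1.val ≤ u.1.1.val + 1
    rw [h]; omega
  · show v.1.1.val ≤ u.1.1.val + 1
    omega

/-- The potential used to separate different columns. -/
def pot {N : ℕ} (j : Fin N) (v : W N) : ℕ := v.1.1.val + (if v.1.2 = some j then 0 else 1)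

theorem pot_self {N : ℕ} (j : Fin N) : pot j (xv j 0 (Nat.zero_le N)) = 0 := by
  have h : (xv j 0 (Nat.zero_le N)).1.2 = some j := rfl
  unfold pot
  rw [if_pos h]
  rfl

theorem pot_other {N : ℕ} (i j : Fin N) (hij : i ≠ j) : pot j (xv i N (le_refl N)) = N + 1 := by
  have h : ¬ (xv i N (le_refl N)).1.2 = some j := fun h => hij (Option.some_injective _ h)
  unfold pot
  rw [if_neg h]
  rfl

theorem dist_far {N : ℕ} (hN : 0 < N) (i j : Fin N) (hij : i ≠ j) :
    N + 1 ≤ (H N).dist (xv j 0 (Nat.zero_le N)) (xv i N (le_refl N)) := by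
  obtain ⟨p, hp⟩ := (H_connected hN).exists_walk_length_eq_dist
    (xv j 0 (Nat.zero_le N)) (xv i N (le_refl N))
  rw [← hp]
  have h := potential (pot j) ?_ p
  · rw [pot_self, pot_other i j hij] at h
    omega
  · rintro u v (⟨h, -⟩ | ⟨h, -, h'⟩)
    · unfold pot
      rw [h]
      split_ifs <;> omega
    · unfold pot
      rw [h]
      split_ifs <;> omega

/-- The broadcast of strength `N` from every proper vertex of the top level. -/
def bc (N : ℕ) : W N → ℕ := fun v => if v.1.1.val = N ∧ v.1.2 ≠ none then N else 0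

theorem bc_pos {N : ℕ} {v : W N} (hv : 1 ≤ bc N v) :
    ∃ i, v = xv i N (le_refl N) := by
  unfold bc at hv
  split_ifs at hv with h
  · obtain ⟨i, hi⟩ := Option.ne_none_iff_exists'.mp h.2
    refine ⟨i, ?_⟩
    apply Subtype.ext
    apply Prod.ext
    · apply Fin.ext
      exact h.1
    · exact hi
  · omega

theorem bc_xv {N : ℕ} (i : Fin N) : bc N (xv i N (le_refl N)) = N := by
  unfold bc xv
  simp

theorem bc_dominating {N : ℕ} (hN : 0 < N) : IsDominatingBroadcast (H N) (bc N) := by
  constructor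
  · intro v
    by_cases hv : 1 ≤ bc N v
    · obtain ⟨i, rfl⟩ := bc_pos hv
      rw [bc_xv]
      refine le_trans ?_ (edist_le_eccent (v := xv i 0 (Nat.zero_le N)))
      rw [← ((H_connected hN) _ _).coe_dist_eq_edist]
      have h := dist_level hN (xv i 0 (Nat.zero_le N)) (xv i N (le_refl N))
      rw [dist_comm]
      have h' : N ≤ (H N).dist (xv i 0 (Nat.zero_le N)) (xv i N (le_refl N)) := by
        simp only [xv] at h ⊢
        omega
      exact_mod_cast h'
    · have : bc N v = 0 := by omega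
      rw [this]
      simp
  · rintro ⟨⟨t, c⟩, hc⟩
    have htN : t.val ≤ N := by have := t.isLt; omega
    cases c with
    | some i =>
      refine ⟨xv i N (le_refl N), by rw [bc_xv]; exact hN, ?_⟩
      rw [bc_xv]
      have h := dist_top_le i t.val htN
      have e : (⟨(t, some i), hc⟩ : W N) = xv i t.val htN := rfl
      rw [e]
      omega
    | none =>
      have ht0 : t.val ≠ 0 := fun h => hc ⟨h, rfl⟩
      refine ⟨xv ⟨0, hN⟩ N (le_refl N), by rw [bc_xv]; exact hN, ?_⟩
      rw [bc_xv]
      have h := dist_top_le ⟨0, hN⟩ t.val htN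
      have hadj : (H N).Adj ⟨(t, none), hc⟩ (xv ⟨0, hN⟩ t.val htN) := by
        refine Or.inl ⟨rfl, ?_⟩
        intro h
        have := congrArg (fun v : W N => v.1.2) h
        simp [xv] at this
      have h2 := (H_connected hN).dist_triangle (u := ⟨(t, none), hc⟩)
        (v := xv ⟨0, hN⟩ t.val htN) (w := xv ⟨0, hN⟩ N (le_refl N))
      have h3 : (H N).dist ⟨(t, none), hc⟩ (xv ⟨0, hN⟩ t.val htN) = 1 :=
        dist_eq_one_iff_adj.mpr hadj
      omega

theorem bc_minimal {N : ℕ} (hN : 0 < N) : IsMinimalDominatingBroadcast (H N) (bc N) := by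
  refine ⟨bc_dominating hN, ?_⟩
  intro g hg hne hdom
  obtain ⟨v, hv⟩ := Function.ne_iff.mp hne
  have hlt : g v < bc N v := lt_of_le_of_ne (hg v) hv
  obtain ⟨i, rfl⟩ := bc_pos (v := v) (by omega)
  rw [bc_xv] at hlt
  obtain ⟨w, hw1, hw2⟩ := hdom.2 (xv i 0 (Nat.zero_le N))
  obtain ⟨j, rfl⟩ := bc_pos (v := w) (hw1.trans (hg w))
  have hgw := hg (xv j N (le_refl N))
  rw [bc_xv] at hgw
  by_cases hij : j = i
  · subst hij
    have h := dist_level hN (xv j 0 (Nat.zero_le N)) (xv j N (le_refl N))
    simp only [xv] at h hw2 hlt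
    omega
  · have h := dist_far hN j i hij
    omega

theorem top_inj (N : ℕ) : Function.Injective (fun i : Fin N => xv i N (le_refl N)) := by
  intro i j h
  have h1 : (xv i N (le_refl N)).1.2 = (xv j N (le_refl N)).1.2 :=
    congrArg (fun v : W N => v.1.2) h
  exact Option.some_injective _ h1

theorem bc_cost (N : ℕ) : ∑ v, bc N v = N * N := by
  classical
  have h1 : ∑ v, bc N v =
      ∑ v ∈ Finset.univ.image (fun i : Fin N => xv i N (le_refl N)), bc N v := by
    symm
    apply Finset.sum_subset (Finset.subset_univ _)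
    intro v _ hv
    by_contra hne
    obtain ⟨i, rfl⟩ := bc_pos (v := v) (by omega)
    exact hv (Finset.mem_image_of_mem _ (Finset.mem_univ i))
  rw [h1, Finset.sum_image (fun i _ j _ h => top_inj N h)]
  rw [Finset.sum_congr rfl (fun i _ => bc_xv i), Finset.sum_const, Finset.card_univ,
    Fintype.card_fin, smul_eq_mul]

/-- The number of vertices of `D` on level `t`. -/
theorem upper_bound {N : ℕ} (hN : 0 < N) (D : Finset (W N))
    (hD : IsMinimalDominating (H N) D) : D.card ≤ 2 * N + 1 := by
  classical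
  -- every level `t ≥ 1` meets `D`
  have hmeet : ∀ t : Fin (N + 1), t.val ≠ 0 → ∃ d ∈ D, d.1.1 = t := by
    intro t ht
    rcases hD.1 ⟨(t, none), fun h => ht h.1⟩ with h | ⟨w, hw, hadj⟩
    · exact ⟨_, h, rfl⟩
    · rcases hadj with ⟨h, -⟩ | ⟨-, h, -⟩
      · exact ⟨w, hw, h.symm⟩
      · exact absurd rfl h
  -- private neighbours
  have hpriv : ∀ d ∈ D, ∃ p : W N, p ∉ D.erase d ∧ (∀ w ∈ D.erase d, ¬ (H N).Adj p w) := by
    intro d hd
    have h := hD.2 (D.erase d) (Finset.erase_ssubset hd)
    unfold IsDominating at h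
    push Not at h
    exact h
  have hone : ∀ t : Fin (N + 1), t.val ≠ 1 → (D.filter (fun v => v.1.1 = t)).card ≤ 1 := by
    intro t ht
    rw [Finset.card_le_one]
    intro d hd d' hd'
    rw [Finset.mem_filter] at hd hd'
    by_contra hne
    obtain ⟨p, hp1, hp2⟩ := hpriv d hd.1
    have hd'e : d' ∈ D.erase d := Finset.mem_erase.mpr ⟨fun h => hne h.symm, hd'.1⟩
    by_cases hpt : p.1.1 = t
    · by_cases hpd : p = d'
      · exact hp1 (hpd ▸ hd'e)
      · exact hp2 d' hd'e (Or.inl ⟨hpt.trans hd'.2.symm, hpd⟩)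
    · -- `p` lies on a neighbouring level
      have hpd : (H N).Adj p d := by
        rcases hD.1 p with h | ⟨w, hw, hadj⟩
        · exfalso
          apply hp1
          refine Finset.mem_erase.mpr ⟨?_, h⟩
          rintro rfl
          exact hpt hd.2
        · by_cases hwd : w = d
          · rw [← hwd]; exact hadj
          · exact absurd hadj (hp2 w (Finset.mem_erase.mpr ⟨hwd, hw⟩))
      have hlev : p.1.1.val ≠ 0 := by
        rcases hpd with ⟨h, -⟩ | ⟨-, -, h⟩
        · exact absurd (h.trans hd.2) hpt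
        · have h5 : d.1.1.val = t.val := congrArg Fin.val hd.2
          omega
      obtain ⟨e, he, het⟩ := hmeet p.1.1 hlev
      have hed : e ∈ D.erase d := by
        refine Finset.mem_erase.mpr ⟨?_, he⟩
        rintro rfl
        exact hpt (het.symm.trans hd.2)
      by_cases hpe : p = e
      · exact hp1 (hpe ▸ hed)
      · exact hp2 e hed (Or.inl ⟨het.symm, hpe⟩)
  have hlevel : ∀ t : Fin (N + 1), (D.filter (fun v => v.1.1 = t)).card ≤
      1 + (if t.val = 1 then N else 0) := by
    intro t
    by_cases ht : t.val = 1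
    · rw [if_pos ht]
      have h1 : ((D.filter (fun v => v.1.1 = t)).image (fun v => v.1.2)).card =
          (D.filter (fun v => v.1.1 = t)).card := by
        apply Finset.card_image_of_injOn
        intro a ha b hb hab
        rw [Finset.mem_coe, Finset.mem_filter] at ha hb
        exact Subtype.ext (Prod.ext (ha.2.trans hb.2.symm) hab)
      rw [← h1]
      refine (Finset.card_le_univ _).trans ?_
      rw [Fintype.card_option, Fintype.card_fin]
      omega
    · have := hone t ht
      omega
  have hsum : D.card = ∑ t : Fin (N + 1), (D.filter (fun v => v.1.1 = t)).card :=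
    Finset.card_eq_sum_card_fiberwise (fun x _ => Finset.mem_coe.mpr (Finset.mem_univ _))
  rw [hsum]
  refine (Finset.sum_le_sum (fun t _ => hlevel t)).trans ?_
  rw [Finset.sum_add_distrib, Finset.sum_const, Finset.card_univ, Fintype.card_fin,
    smul_eq_mul, mul_one]
  have h2 : ∑ t : Fin (N + 1), (if t.val = 1 then N else 0) = N := by
    rw [Finset.sum_eq_single (⟨1, by omega⟩ : Fin (N + 1))]
    · simp
    · intro b _ hb
      rw [if_neg]
      intro h
      exact hb (Fin.ext h)
    · intro h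
      exact absurd (Finset.mem_univ _) h
  rw [h2]
  omega

theorem result : ∀ K : ℕ, ∃ (V : Type) (_ : Fintype V) (G : SimpleGraph V),
    G.Connected ∧ 2 ≤ Fintype.card V ∧ 0 < upperDomination G ∧
      K * upperDomination G < upperBroadcast G := by
  intro K
  set N := 2 * K + 1 with hN
  have hN0 : 0 < N := by omega
  have hb : N * N ≤ upperBroadcast (H N) := by
    apply le_csSup (upperBroadcast_bdd (H N) (H_connected hN0))
    exact ⟨bc N, bc_minimal hN0, (bc_cost N).symm⟩
  have hu : upperDomination (H N) ≤ 2 * N + 1 := by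
    apply csSup_le'
    rintro k ⟨D, hD, rfl⟩
    exact upper_bound hN0 D hD
  refine ⟨W N, inferInstance, H N, H_connected hN0, ?_, ?_, ?_⟩
  · have : Nontrivial (W N) := by
      refine ⟨⟨xv ⟨0, hN0⟩ 0 (Nat.zero_le N), xv ⟨0, hN0⟩ N (le_refl N), ?_⟩⟩
      intro h
      have := congrArg (fun v : W N => v.1.1.val) h
      simp only [xv] at this
      omega
    exact Fintype.one_lt_card
  · -- a minimal dominating set exists and is nonempty
    obtain ⟨D, hD, hmin⟩ : ∃ D : Finset (W N), IsDominating (H N) D ∧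
        ∀ D' : Finset (W N), D' ⊂ D → ¬ IsDominating (H N) D' := by
      have hne : {D : Finset (W N) | IsDominating (H N) D}.Nonempty :=
        ⟨Finset.univ, fun v => Or.inl (Finset.mem_univ v)⟩
      obtain ⟨D, hD⟩ := (Set.toFinite {D : Finset (W N) | IsDominating (H N) D}).exists_minimal hne
      exact ⟨D, hD.prop, fun D' hD' h => hD'.2 (hD.le_of_le h hD'.1)⟩
    have hpos : 0 < D.card := by
      rw [Finset.card_pos]
      rcases hD (xv ⟨0, hN0⟩ N (le_refl N)) with h | ⟨w, hw, -⟩
      · exact ⟨_, h⟩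
      · exact ⟨w, hw⟩
    refine lt_of_lt_of_le hpos (le_csSup ⟨Fintype.card (W N), ?_⟩ ⟨D, ⟨hD, hmin⟩, rfl⟩)
    rintro k ⟨D', -, rfl⟩
    exact Finset.card_le_univ D'
  · have h1 : K * upperDomination (H N) ≤ K * (2 * N + 1) := Nat.mul_le_mul_left K hu
    have h2 : K * (2 * N + 1) < N * N := by
      rw [hN]; nlinarith
    omega

end Pool.Agent.Results.MP_9b093e_co.UnboundedRatio
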